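import Pool.Agent.Helper35.PQF.St3
import Pool.Agent.Helper12.PM.M_F3

set_option autoImplicit false

/-!
# Project PQF, module JC: joint continuity
-/

open Filter Topology Matrix Set MeasureTheory
open scoped ENNReal ComplexOrder

namespace Pool.Agent.Helper2.PM

open Pool.Agent.Helper35.PM Pool.Agent.Helper12.PM

theorem zt_mem (t : ℝ) : zt t ∈ Metric.ball (0 : ℂ) 1 := by
  rw [mem_ball_zero_iff]
  unfold zt
  rw [Complex.norm_real, Real.norm_eq_abs]
  exact Real.abs_tanh_lt_one _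

theorem joint (e : ℝ → ℝ → ℝ) (hpos : ∀ t θ, 0 < e t θ)
    (hc : ∀ t, Continuous fun θ => 1 / e t θ)
    (hl : ∀ θ s t, 1 / e s θ ≤ Real.exp |s - t| * (1 / e t θ)) (L : ℝ) :
    Continuous fun θ => Real.sqrt ((∫ t in (0 : ℝ)..L, Real.sqrt (2 - e t θ)) *
      ((∫ t in (0 : ℝ)..L, Real.sqrt (2 - e t θ)) +
        Real.sqrt (2 - e 0 θ) + Real.sqrt (2 - e L θ)) / 2) := by
  have hV : Continuous (fun p : ℝ × ℝ => Real.log (1 / e p.1 p.2)) := by
    refine continuous_prod_of_continuous_lipschitzWith _ 1 ?_ ?_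
    · intro t
      exact (hc t).log (fun θ => (one_div_pos.2 (hpos t θ)).ne')
    · intro θ
      refine LipschitzWith.of_le_add fun s t => ?_
      have h3 := Real.log_le_log (one_div_pos.2 (hpos s θ)) (hl θ s t)
      rw [Real.log_mul (Real.exp_pos _).ne' (one_div_pos.2 (hpos t θ)).ne', Real.log_exp] at h3
      rw [Real.dist_eq]
      linarith
  have h1 : (fun p : ℝ × ℝ => e p.1 p.2) = fun p => Real.exp (-Real.log (1 / e p.1 p.2)) := by
    funext p
    rw [← Real.log_inv, one_div, inv_inv, Real.exp_log (hpos p.1 p.2)]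
  have h2 : Continuous fun p : ℝ × ℝ => e p.1 p.2 := by
    rw [h1]
    exact Real.continuous_exp.comp hV.neg
  have hψ : Continuous fun p : ℝ × ℝ => Real.sqrt (2 - e p.1 p.2) :=
    (continuous_const.sub h2).sqrt
  have hψ1 : ∀ t : ℝ, Continuous fun θ : ℝ => Real.sqrt (2 - e t θ) :=
    fun t => hψ.comp (continuous_const.prodMk continuous_id)
  have hsw : Continuous (Function.uncurry fun θ t : ℝ => Real.sqrt (2 - e t θ)) :=
    hψ.comp (continuous_swap (X := ℝ) (Y := ℝ))
  have hI : Continuous fun θ : ℝ => ∫ t in (0 : ℝ)..L, Real.sqrt (2 - e t θ) :=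
    intervalIntegral.continuous_parametric_intervalIntegral_of_continuous' hsw 0 L
  exact ((hI.mul ((hI.add (hψ1 0)).add (hψ1 L))).div_const 2).sqrt

theorem jc (qf : St_QF) (po : St_PO) (ge1 : St_GE1) (ra2 : St_RA2) : St_JC := by
  intro g hg U hU F hF1 hF2 L y hL hy
  have hpt : ∀ θ : ℝ, pt (-y) θ ∈ Metric.ball (0 : ℂ) 1 := fun θ => pt_mem (by linarith) θ
  have hent : ∀ t θ : ℝ, 0 < ent (F (zt t) (pt (-y) θ)) := fun t θ =>
    (qf g hg _ ((hF1 _ (zt_mem t)).2 _ (hpt θ))).2.1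
  have hc : ∀ t : ℝ, Continuous fun θ : ℝ => 1 / ent (F (zt t) (pt (-y) θ)) := by
    intro t
    have hD := hF1 _ (zt_mem t)
    have hc : ContinuousOn (fun w => 1 / ent (F (zt t) w)) (Metric.ball 0 1) :=
      ra2 _ _ (po _ (F (zt t)) U hD.1 (fun z hz => qf g hg _ (hD.2 z hz))
        (fun z hz => hU _ (hD.2 z hz)))
    have hc1 : Continuous fun θ : ℝ => pt (-y) θ := by
      unfold pt
      fun_prop
    exact hc.comp_continuous hc1 hpt
  have hl : ∀ θ s t : ℝ, 1 / ent (F (zt s) (pt (-y) θ)) ≤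
      Real.exp |s - t| * (1 / ent (F (zt t) (pt (-y) θ))) := by
    intro θ s t
    have hD := hF2 _ (hpt θ)
    have hP := po _ (fun z => F z (pt (-y) θ)) U hD.1 (fun z hz => qf g hg _ (hD.2 z hz))
      (fun z hz => hU _ (hD.2 z hz))
    exact (ge1 _ _ hP).1 s t
  have hfin := joint (fun t θ => ent (F (zt t) (pt (-y) θ))) hent hc hl L
  unfold cost
  exact hfin

end Pool.Agent.Helper2.PM
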