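import Pool.Agent.Helper35.PQF.St3
import Pool.Agent.Helper12.PM.M_F3

set_option autoImplicit false

/-!
# Project PQF, module RM: mean cost of a random ray
-/

open Filter Topology Matrix Set MeasureTheory
open scoped ENNReal ComplexOrder

namespace Pool.Agent.Helper2.PM

open Pool.Agent.Helper35.PM Pool.Agent.Helper12.PM

theorem exp04 : (2.1904 : ℝ) ≤ Real.exp 0.4 * Real.exp 0.4 := by
  have h := Real.quadratic_le_exp_of_nonneg (x := 0.4) (by norm_num)
  have h2 : (1.48 : ℝ) ≤ Real.exp 0.4 := by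
    refine le_trans ?_ h
    norm_num
  nlinarith

/-- the time at which the diameter reaches the circle of radius `e⁻¹` -/
theorem zt_bound (L : ℝ) (h : zt L = ((Real.exp (-1) : ℝ) : ℂ)) : L ≤ 0.8 := by
  unfold zt at h
  have h1 : Real.tanh (L / 2) = Real.exp (-1) := Complex.ofReal_injective h
  by_contra hL
  push Not at hL
  have h2 : Real.exp 0.4 ≤ Real.exp (L / 2) := Real.exp_le_exp.2 (by linarith)
  have h3 := exp04
  have h4 : (2.1904 : ℝ) ≤ Real.exp (L / 2) * Real.exp (L / 2) := by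
    refine h3.trans (mul_le_mul h2 h2 (Real.exp_pos _).le (Real.exp_pos _).le)
  have h5 := Real.exp_neg_one_lt_d9
  have hE : 0 < Real.exp (L / 2) := Real.exp_pos _
  rw [Real.tanh_eq_sinh_div_cosh, Real.sinh_eq, Real.cosh_eq, Real.exp_neg (L / 2),
    div_div_div_cancel_right₀ (two_ne_zero), div_eq_iff (by positivity)] at h1
  have h6 : Real.exp (L / 2) * Real.exp (L / 2) - 1 =
      Real.exp (-1) * (Real.exp (L / 2) * Real.exp (L / 2) + 1) := by
    have h7 : (Real.exp (L / 2) - (Real.exp (L / 2))⁻¹) * Real.exp (L / 2) =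
        (Real.exp (-1) * (Real.exp (L / 2) + (Real.exp (L / 2))⁻¹)) * Real.exp (L / 2) := by
      rw [h1]
    have h8 : (Real.exp (L / 2))⁻¹ * Real.exp (L / 2) = 1 := inv_mul_cancel₀ hE.ne'
    calc Real.exp (L / 2) * Real.exp (L / 2) - 1
        = (Real.exp (L / 2) - (Real.exp (L / 2))⁻¹) * Real.exp (L / 2) := by
          rw [sub_mul, h8]
      _ = _ := h7
      _ = Real.exp (-1) * (Real.exp (L / 2) * Real.exp (L / 2) +
            (Real.exp (L / 2))⁻¹ * Real.exp (L / 2)) := by ring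
      _ = _ := by rw [h8]
  nlinarith [Real.exp_pos (-1)]

theorem first (qf : St_QF) (f1 : St_F1) (g : ℕ) (hg : 2 ≤ g)
    (U : (SurfaceGroup g →* SL) → Ultrafilter ℝ) (hU : ∀ ρ, IsQF ρ → Adapted (U ρ) ρ)
    (f : ℂ → SurfaceGroup g →* SL) (hf : HolDisc f) (θ : ℝ) :
    pressureDist U (f 0) (f (pt (-1) θ)) ≤ ENNReal.ofReal (3 / 2) := by
  obtain ⟨L, hL, hzt⟩ := exists_zt (Real.exp_pos (-1)) (exp_lt1 (by norm_num))
  have hmap : MapsTo (fun z : ℂ => Complex.exp (θ * Complex.I) * z) (Metric.ball (0 : ℂ) 1)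
      (Metric.ball (0 : ℂ) 1) := by
    intro z hz
    rw [mem_ball_zero_iff] at hz ⊢
    rw [norm_mul, Complex.norm_exp_ofReal_mul_I, one_mul]
    exact hz
  have hdisc : HolDisc (fun z => f (Complex.exp (θ * Complex.I) * z)) := by
    refine ⟨fun γ i j => ?_, fun z hz => hf.2 _ (hmap hz)⟩
    exact (hf.1 γ i j).comp ((differentiable_id.const_mul _).differentiableOn) hmap
  have hzt' : ∀ t : ℝ, zt t ∈ Metric.ball (0 : ℂ) 1 := by
    intro t
    rw [mem_ball_zero_iff]
    unfold zt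
    rw [Complex.norm_real, Real.norm_eq_abs]
    exact Real.abs_tanh_lt_one _
  have h := (f1 g hg U hU _ hdisc L 2 hL (fun t _ => by
    have := (qf g hg _ (hdisc.2 (zt t) (hzt' t))).2.1
    linarith)).2
  simp only [mul_zero] at h
  have hb := zt_bound L hzt
  rw [hzt] at h
  have e : Complex.exp (θ * Complex.I) * ((Real.exp (-1) : ℝ) : ℂ) = pt (-1) θ := by
    unfold pt
    rw [Complex.ofReal_exp, ← Complex.exp_add, add_comm]
  rw [e] at h
  refine h.trans (ENNReal.ofReal_le_ofReal ?_)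
  rw [show (3 / 2 : ℝ) = Real.sqrt ((3 / 2) ^ 2) by rw [Real.sqrt_sq (by norm_num)]]
  apply Real.sqrt_le_sqrt
  nlinarith

theorem holder (μ : Measure ℝ) (E : ℝ → ℝ≥0∞) (hE : Measurable E) (A B : ℝ) (hA : 0 ≤ A)
    (hB : 0 ≤ B) (h1 : ∫⁻ θ, E θ ∂μ ≤ ENNReal.ofReal A) (h2 : μ Set.univ ≤ ENNReal.ofReal B) :
    ∫⁻ θ, (E θ) ^ (1 / 2 : ℝ) ∂μ ≤ ENNReal.ofReal (Real.sqrt (A * B)) := by
  have hpq : (2 : ℝ).HolderConjugate 2 := Real.HolderConjugate.two_two
  have h := ENNReal.lintegral_mul_le_Lp_mul_Lq μ hpq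
    (f := fun θ => (E θ) ^ (1 / 2 : ℝ)) (g := fun _ => 1) (hE.pow_const _).aemeasurable
    aemeasurable_const
  have e1 : ∀ θ, ((E θ) ^ (1 / 2 : ℝ)) ^ (2 : ℝ) = E θ := by
    intro θ
    rw [← ENNReal.rpow_mul]
    norm_num
  simp only [Pi.mul_apply, mul_one, e1, ENNReal.one_rpow, lintegral_const, one_mul] at h
  refine h.trans ?_
  rw [Real.sqrt_eq_rpow, ← ENNReal.ofReal_rpow_of_nonneg (mul_nonneg hA hB) (by norm_num),
    ENNReal.ofReal_mul hA, ENNReal.mul_rpow_of_nonneg _ _ (by norm_num)]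
  exact mul_le_mul' (ENNReal.rpow_le_rpow h1 (by norm_num)) (ENNReal.rpow_le_rpow h2 (by norm_num))

theorem mdef_lint (qf : St_QF) (po : St_PO) (ra2 : St_RA2) (g : ℕ) (hg : 2 ≤ g)
    (U : (SurfaceGroup g →* SL) → Ultrafilter ℝ) (hU : ∀ ρ, IsQF ρ → Adapted (U ρ) ρ)
    (f : ℂ → SurfaceGroup g →* SL) (hf : HolDisc f) (y : ℝ) (hy : 0 < y) :
    0 ≤ mdef f y ∧ ∫⁻ θ in Ioo 0 (2 * Real.pi),
        ENNReal.ofReal ((2 - ent (f (pt (-y) θ))) / ent (f (pt (-y) θ))) =
      ENNReal.ofReal (2 * Real.pi * mdef f y) := by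
  have hfacts : ∀ z ∈ Metric.ball (0 : ℂ) 1, Facts (f z) := fun z hz => qf g hg _ (hf.2 z hz)
  have hpt : ∀ θ : ℝ, pt (-y) θ ∈ Metric.ball (0 : ℂ) 1 := fun θ => pt_mem (by linarith) θ
  have hcont : ContinuousOn (fun z => 1 / ent (f z)) (Metric.ball 0 1) :=
    ra2 _ _ (po _ f U hf.1 hfacts (fun z hz => hU _ (hf.2 z hz)))
  have hc1 : Continuous fun θ : ℝ => pt (-y) θ := by
    unfold pt
    fun_prop
  have hc2 : Continuous fun θ : ℝ => 1 / ent (f (pt (-y) θ)) := hcont.comp_continuous hc1 hpt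
  have hc3 : Continuous fun θ : ℝ => (2 - ent (f (pt (-y) θ))) / ent (f (pt (-y) θ)) := by
    have h0 : Continuous fun θ : ℝ => 2 * (1 / ent (f (pt (-y) θ))) - 1 :=
      (hc2.const_mul 2).sub continuous_const
    refine h0.congr fun θ => ?_
    have := (hfacts _ (hpt θ)).2.1
    field_simp
  have hnn : ∀ θ : ℝ, 0 ≤ (2 - ent (f (pt (-y) θ))) / ent (f (pt (-y) θ)) := by
    intro θ
    have h1 := (hfacts _ (hpt θ)).2.1
    have h2 := (hfacts _ (hpt θ)).2.2.1
    exact div_nonneg (by linarith) h1.le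
  have h2pi : (0 : ℝ) ≤ 2 * Real.pi := by positivity
  have e1 : ∫⁻ θ in Ioo 0 (2 * Real.pi),
        ENNReal.ofReal ((2 - ent (f (pt (-y) θ))) / ent (f (pt (-y) θ))) =
      ENNReal.ofReal (∫ θ in (0 : ℝ)..(2 * Real.pi),
        (2 - ent (f (pt (-y) θ))) / ent (f (pt (-y) θ))) := by
    rw [intervalIntegral.integral_of_le h2pi, integral_Ioc_eq_integral_Ioo,
      ofReal_integral_eq_lintegral_ofReal]
    · exact (hc3.integrableOn_Icc (a := 0) (b := 2 * Real.pi)).mono_set Ioo_subset_Icc_self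
    · exact Eventually.of_forall fun θ => hnn θ
  have e2 : 2 * Real.pi * mdef f y = ∫ θ in (0 : ℝ)..(2 * Real.pi),
        (2 - ent (f (pt (-y) θ))) / ent (f (pt (-y) θ)) := by
    unfold mdef
    rw [← mul_assoc, mul_inv_cancel₀ (by positivity), one_mul]
  refine ⟨?_, by rw [e1, e2]⟩
  unfold mdef
  refine mul_nonneg (by positivity) ?_
  exact intervalIntegral.integral_nonneg h2pi fun θ _ => hnn θ

theorem rm (qf : St_QF) (po : St_PO) (ra2 : St_RA2) (f1 : St_F1) (sy : St_SY) : St_RM := by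
  intro g hg U hU f hf hE n y hy0 hya hyp
  obtain ⟨E, hEm, hEi, hEd⟩ := hE
  refine ⟨fun θ => ENNReal.ofReal (3 / 2) + ∑ k ∈ Finset.range n,
    (E (y k) θ) ^ (1 / 2 : ℝ) * ENNReal.ofReal (Real.sqrt (Real.log (y k / y (k + 1)))),
    ?_, ?_, ?_⟩
  · have h0 : ∀ k ∈ Finset.range n, Measurable fun θ : ℝ => (E (y k) θ) ^ (1 / 2 : ℝ) *
        ENNReal.ofReal (Real.sqrt (Real.log (y k / y (k + 1)))) := fun k _ =>
      ((hEm _ (hyp k)).pow_const _).mul_const _
    exact Measurable.const_add (Finset.measurable_fun_sum _ h0) _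
  · intro θ
    beta_reduce
    induction n with
    | zero =>
      rw [Finset.range_zero, Finset.sum_empty, add_zero, hy0]
      exact first qf f1 g hg U hU f hf θ
    | succ n ih =>
      have h1 := (sy _ U).2 (f 0) (f (pt (-(y n)) θ)) (f (pt (-(y (n + 1))) θ))
      have h2 := hEd θ (y (n + 1)) (y n) (hyp _) (hya (Nat.le_succ n))
      rw [Finset.sum_range_succ, ← add_assoc]
      exact h1.trans (add_le_add ih h2)
  · have hvol : (volume.restrict (Ioo 0 (2 * Real.pi))) Set.univ ≤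
        ENNReal.ofReal (2 * Real.pi) := by
      rw [Measure.restrict_apply_univ, Real.volume_Ioo, sub_zero]
    have hk : ∀ k, 0 ≤ mdef f (y k) ∧
        ∫⁻ θ in Ioo 0 (2 * Real.pi), (E (y k) θ) ^ (1 / 2 : ℝ) ≤
        ENNReal.ofReal (2 * Real.pi * Real.sqrt (mdef f (y k))) := by
      intro k
      obtain ⟨hm, hi⟩ := mdef_lint qf po ra2 g hg U hU f hf (y k) (hyp k)
      refine ⟨hm, ?_⟩
      have h3 := holder (volume.restrict (Ioo 0 (2 * Real.pi))) (E (y k)) (hEm _ (hyp k))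
        (2 * Real.pi * mdef f (y k)) (2 * Real.pi) (by positivity) (by positivity)
        ((hEi _ (hyp k)).trans_eq hi) hvol
      refine h3.trans_eq ?_
      congr 1
      rw [show 2 * Real.pi * mdef f (y k) * (2 * Real.pi) =
        (2 * Real.pi) ^ 2 * mdef f (y k) by ring, Real.sqrt_mul (by positivity),
        Real.sqrt_sq (by positivity)]
    rw [lintegral_add_left measurable_const, lintegral_finsetSum _ (fun k _ =>
      ((hEm _ (hyp k)).pow_const _).mul_const _)]
    have e3 : ENNReal.ofReal (2 * Real.pi *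
          (3 / 2 + ∑ k ∈ Finset.range n,
            Real.sqrt (mdef f (y k)) * Real.sqrt (Real.log (y k / y (k + 1))))) =
        ENNReal.ofReal (3 / 2) * ENNReal.ofReal (2 * Real.pi) + ∑ k ∈ Finset.range n,
          ENNReal.ofReal (2 * Real.pi * Real.sqrt (mdef f (y k))) *
            ENNReal.ofReal (Real.sqrt (Real.log (y k / y (k + 1)))) := by
      have e4 : ∀ k, ENNReal.ofReal (2 * Real.pi * Real.sqrt (mdef f (y k))) *
            ENNReal.ofReal (Real.sqrt (Real.log (y k / y (k + 1)))) =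
          ENNReal.ofReal (2 * Real.pi * Real.sqrt (mdef f (y k)) *
            Real.sqrt (Real.log (y k / y (k + 1)))) := by
        intro k
        rw [← ENNReal.ofReal_mul (by positivity)]
      simp only [e4]
      rw [← ENNReal.ofReal_mul (by norm_num), ← ENNReal.ofReal_sum_of_nonneg
        (fun k _ => by positivity), ← ENNReal.ofReal_add (by positivity)
        (Finset.sum_nonneg fun k _ => by positivity)]
      congr 1
      rw [mul_add, Finset.mul_sum]
      congr 1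
      · ring
      · refine Finset.sum_congr rfl fun k _ => ?_
        ring
    rw [e3]
    refine add_le_add ?_ (Finset.sum_le_sum fun k _ => ?_)
    · rw [lintegral_const]
      exact mul_le_mul' le_rfl hvol
    · rw [lintegral_mul_const _ ((hEm _ (hyp k)).pow_const _)]
      exact mul_le_mul' (hk k).2 le_rfl

end Pool.Agent.Helper2.PM
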